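import Pool.Agent.W420.BF.DatA
import Pool.Agent.W420.BF.DatB0
import Pool.Agent.W420.BF.DatB1
import Pool.Agent.W420.BF.DatB2
import Pool.Agent.W420.BF.DatB3
import Mathlib.Tactic.IntervalCases

/-! All gluing tables together. -/

set_option autoImplicit false

namespace Pool.Agent.W420.BF

theorem table (a b m n : ℕ) (ha : 3 ≤ a) (hab : a ≤ b) (hb : b ≤ 5) (hm : m < nb a)
    (hn : n < nb b) : ∃ W, chkP a m b n W = true := by
  have ha3 : a = 3 ∨ a = 4 ∨ a = 5 := by omega
  rcases ha3 with rfl | rfl | rfl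
  · have hb3 : b = 3 ∨ b = 4 ∨ b = 5 := by omega
    rcases hb3 with rfl | rfl | rfl
    · have hm1 : m < 1 := hm
      have hn1 : n < 1 := hn
      clear hm hn
      interval_cases m <;> interval_cases n
      · exact ⟨_, c3030⟩
    · have hm1 : m < 1 := hm
      have hn1 : n < 2 := hn
      clear hm hn
      interval_cases m <;> interval_cases n
      · exact ⟨_, c3040⟩
      · exact ⟨_, c3041⟩
    · have hm1 : m < 1 := hm
      have hn1 : n < 4 := hn
      clear hm hn
      interval_cases m <;> interval_cases n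
      · exact ⟨_, c3050⟩
      · exact ⟨_, c3051⟩
      · exact ⟨_, c3052⟩
      · exact ⟨_, c3053⟩
  · have hb3 : b = 4 ∨ b = 5 := by omega
    rcases hb3 with rfl | rfl
    · have hm1 : m < 2 := hm
      have hn1 : n < 2 := hn
      clear hm hn
      interval_cases m <;> interval_cases n
      · exact ⟨_, c4040⟩
      · exact ⟨_, c4041⟩
      · exact ⟨_, c4140⟩
      · exact ⟨_, c4141⟩
    · have hm1 : m < 2 := hm
      have hn1 : n < 4 := hn
      clear hm hn
      interval_cases m <;> interval_cases n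
      · exact ⟨_, c4050⟩
      · exact ⟨_, c4051⟩
      · exact ⟨_, c4052⟩
      · exact ⟨_, c4053⟩
      · exact ⟨_, c4150⟩
      · exact ⟨_, c4151⟩
      · exact ⟨_, c4152⟩
      · exact ⟨_, c4153⟩
  · have hb3 : b = 5 := by omega
    rcases hb3 with rfl
    · have hm1 : m < 4 := hm
      have hn1 : n < 4 := hn
      clear hm hn
      interval_cases m <;> interval_cases n
      · exact ⟨_, c5050⟩
      · exact ⟨_, c5051⟩
      · exact ⟨_, c5052⟩
      · exact ⟨_, c5053⟩
      · exact ⟨_, c5150⟩
      · exact ⟨_, c5151⟩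
      · exact ⟨_, c5152⟩
      · exact ⟨_, c5153⟩
      · exact ⟨_, c5250⟩
      · exact ⟨_, c5251⟩
      · exact ⟨_, c5252⟩
      · exact ⟨_, c5253⟩
      · exact ⟨_, c5350⟩
      · exact ⟨_, c5351⟩
      · exact ⟨_, c5352⟩
      · exact ⟨_, c5353⟩

end Pool.Agent.W420.BF
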