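import Pool.Agent.W420.BF.Sound
import Pool.Agent.W420.BF.Table

/-!
The union of two pieces.
-/

set_option autoImplicit false

open Finset

namespace Pool.Agent.W420.BF

variable {V E : Type} [Fintype E]

theorem mem_cut (s t : E → V) (Z : Set V) (e : E) :
    e ∈ cut s t Z ↔ ¬ (s e ∈ Z ↔ t e ∈ Z) := by
  classical
  unfold cut
  simp only [mem_filter, mem_univ, true_and]

theorem bd_congr (s t : E → V) (x y : E → ZMod 2) (v : V)
    (h : ∀ e, (s e = v ∨ t e = v) → x e = y e) : bd s t x v = bd s t y v := by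
  classical
  unfold bd
  refine Finset.sum_congr rfl fun e _ => ?_
  by_cases h1 : s e = v
  · rw [h e (Or.inl h1)]
  · by_cases h2 : t e = v
    · rw [h e (Or.inr h2)]
    · simp [h1, h2]

theorem mem_cut_union (s t : E → V) (X Y : Set V) (hd : Disjoint X Y) (e : E) :
    e ∈ cut s t (X ∪ Y) ↔ (e ∈ cut s t X ∧ e ∉ cut s t Y) ∨ (e ∈ cut s t Y ∧ e ∉ cut s t X) := by
  have h : ∀ v, v ∈ X → v ∉ Y := fun v hv => Set.disjoint_left.mp hd hv
  have h1 := h (s e)
  have h2 := h (t e)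
  simp only [mem_cut, Set.mem_union]
  tauto

theorem aux {p q r u : Prop} (h1 : ¬ (p ↔ q)) (h2 : ¬ ¬ (r ↔ u)) (h5 : r → ¬ p)
    (h6 : u → ¬ q) : ¬ (r ∨ u) := by tauto

theorem join_le (hact : StmAct) (s t : E → V) (X Y : Set V) (a b : ℕ) (hd : Disjoint X Y)
    (hX : HasC s t X a) (hY : HasC s t Y b) (ha : 3 ≤ a) (hab : a ≤ b) (hb : b ≤ 5)
    (hk : (cut s t (X ∪ Y)).card = 0 ∨
      3 ≤ (cut s t (X ∪ Y)).card ∧ (cut s t (X ∪ Y)).card ≤ 5) :
    HasC s t (X ∪ Y) (cut s t (X ∪ Y)).card := by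
  classical
  obtain ⟨oX, ⟨iX, mX⟩, m, hm, sX⟩ := hX
  obtain ⟨oY, ⟨iY, mY⟩, n, hn, sY⟩ := hY
  obtain ⟨g, hg⟩ : ∃ g : ℕ → ℕ, g = fun x => if h : ∃ y < b, oY y = oX x then h.choose else b :=
    ⟨_, rfl⟩
  have hg2 : ∀ x, g x ≠ b → g x < b ∧ oY (g x) = oX x := by
    intro x hx
    by_cases h : ∃ y < b, oY y = oX x
    · have : g x = h.choose := by rw [hg]; simp only [dif_pos h]
      rw [this]; exact h.choose_spec
    · exact absurd (by rw [hg]; simp only [dif_neg h]) hx
  have hg1 : ∀ x, g x ≤ b := by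
    intro x
    by_cases h : g x = b
    · exact h.le
    · exact (hg2 x h).1.le
  have hg3 : ∀ x y, y < b → oY y = oX x → g x = y := by
    intro x y hy hxy
    have h : ∃ y < b, oY y = oX x := ⟨y, hy, hxy⟩
    have h1 : g x = h.choose := by rw [hg]; simp only [dif_pos h]
    rw [h1]
    exact iY _ h.choose_spec.1 _ hy (h.choose_spec.2.trans hxy.symm)
  obtain ⟨G, hGd⟩ : ∃ G : List ℕ, G = (List.range a).map g := ⟨_, rfl⟩
  have hGg : ∀ x < a, G.getD x b = g x := by
    intro x hx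
    rw [hGd, List.getD_eq_getElem?_getD, List.getElem?_map, List.getElem?_range hx]
    rfl
  have hGm : ∀ y, y ∈ G ↔ ∃ x < a, g x = y := by
    intro y
    rw [hGd, List.mem_map]
    simp only [List.mem_range]
  have hGp : G ∈ pats b a := by
    refine mem_pats b a G (by rw [hGd]; simp) ?_ ?_
    · intro y hy
      obtain ⟨x, _, rfl⟩ := (hGm y).mp hy
      exact hg1 x
    · rw [hGd, List.pairwise_map]
      refine List.Pairwise.imp_of_mem ?_ (List.nodup_range (n := a))
      intro x y hx hy hxy h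
      by_contra hne
      have h1 := (hg2 x hne).2
      have h2 := (hg2 y (by rw [← h]; exact hne)).2
      rw [h] at h1
      exact hxy (iX x (List.mem_range.mp hx) y (List.mem_range.mp hy) (h1.symm.trans h2))
  obtain ⟨src, hsrc⟩ : ∃ src : ℕ → E, src = fun z => if z < a then oX z else oY (z - a) :=
    ⟨_, rfl⟩
  have hs1 : ∀ z, z < a → src z = oX z := fun z hz => by rw [hsrc]; simp only [if_pos hz]
  have hs2 : ∀ y, src (a + y) = oY y := fun y => by
    rw [hsrc]; simp only [if_neg (by omega : ¬ a + y < a), Nat.add_sub_cancel_left]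
  have hfr : ∀ z, z ∈ fr a b G ↔ (z < a ∧ g z = b) ∨ ∃ y < b, y ∉ G ∧ z = a + y := by
    intro z
    rw [mem_fr]
    constructor
    · rintro (⟨h1, h2⟩ | h)
      · exact Or.inl ⟨h1, by rw [← hGg z h1]; exact h2⟩
      · exact Or.inr h
    · rintro (⟨h1, h2⟩ | h)
      · exact Or.inl ⟨h1, by rw [hGg z h1]; exact h2⟩
      · exact Or.inr h
  -- free ends
  have hfX : ∀ z, z < a → g z = b → oX z ∈ cut s t X ∧ oX z ∉ cut s t Y := by
    intro z hz hgz
    refine ⟨(mX _).mpr ⟨z, hz, rfl⟩, fun h => ?_⟩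
    obtain ⟨y, hy, hyz⟩ := (mY _).mp h
    have := hg3 z y hy hyz
    omega
  have hfY : ∀ y, y < b → y ∉ G → oY y ∈ cut s t Y ∧ oY y ∉ cut s t X := by
    intro y hy hyG
    refine ⟨(mY _).mpr ⟨y, hy, rfl⟩, fun h => ?_⟩
    obtain ⟨x, hx, hxy⟩ := (mX _).mp h
    exact hyG ((hGm y).mpr ⟨x, hx, hg3 x y hy hxy.symm⟩)
  have henum : ∀ e, e ∈ cut s t (X ∪ Y) ↔ ∃ z ∈ fr a b G, src z = e := by
    intro e
    rw [mem_cut_union s t X Y hd]
    constructor
    · rintro (⟨h1, h2⟩ | ⟨h1, h2⟩)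
      · obtain ⟨x, hx, rfl⟩ := (mX e).mp h1
        refine ⟨x, (hfr x).mpr (Or.inl ⟨hx, ?_⟩), hs1 x hx⟩
        by_contra hne
        exact h2 ((mY _).mpr ⟨g x, (hg2 x hne).1, (hg2 x hne).2⟩)
      · obtain ⟨y, hy, rfl⟩ := (mY e).mp h1
        refine ⟨a + y, (hfr _).mpr (Or.inr ⟨y, hy, ?_, rfl⟩), hs2 y⟩
        intro hyG
        obtain ⟨x, hx, hxy⟩ := (hGm y).mp hyG
        have := hg2 x (by omega)
        rw [hxy] at this
        exact h2 ((mX _).mpr ⟨x, hx, this.2.symm⟩)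
    · rintro ⟨z, hz, rfl⟩
      rcases (hfr z).mp hz with ⟨h1, h2⟩ | ⟨y, hy, hyG, rfl⟩
      · rw [hs1 z h1]; exact Or.inl (hfX z h1 h2)
      · rw [hs2 y]; exact Or.inr (hfY y hy hyG)
  have hinj : ∀ z ∈ fr a b G, ∀ w ∈ fr a b G, src z = src w → z = w := by
    intro z hz w hw h
    rcases (hfr z).mp hz with ⟨h1, h2⟩ | ⟨y, hy, hyG, rfl⟩
    · rcases (hfr w).mp hw with ⟨h3, h4⟩ | ⟨y', hy', hyG', rfl⟩
      · rw [hs1 z h1, hs1 w h3] at h; exact iX z h1 w h3 h
      · rw [hs1 z h1, hs2 y'] at h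
        have := (hfX z h1 h2).2
        rw [h] at this
        exact absurd (hfY y' hy' hyG').1 this
    · rcases (hfr w).mp hw with ⟨h3, h4⟩ | ⟨y', hy', hyG', rfl⟩
      · rw [hs1 w h3, hs2 y] at h
        have := (hfX w h3 h4).2
        rw [← h] at this
        exact absurd (hfY y hy hyG).1 this
      · rw [hs2 y, hs2 y'] at h
        rw [iY y hy y' hy' h]
  have hcard : (cut s t (X ∪ Y)).card = (fr a b G).length := by
    have h1 : cut s t (X ∪ Y) = ((fr a b G).map src).toFinset := by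
      ext e
      rw [henum e, List.mem_toFinset, List.mem_map]
    rw [h1, List.toFinset_card_of_nodup, List.length_map]
    exact List.Nodup.map_on hinj (nodup_fr a b G)
  rw [hcard] at hk ⊢
  have hrel : rel (fr a b G).length = true := by
    unfold rel
    simp only [Bool.or_eq_true, Bool.and_eq_true, Nat.beq_eq, Nat.ble_eq]
    exact hk
  obtain ⟨W, hW⟩ := table a b m n ha hab hb hm hn
  obtain ⟨w, hw⟩ := chkAll_sound a b _ _ _ _ _ W hW G hGp hrel
  obtain ⟨r, hr, cl, hperm, hlen, hst⟩ := chk1_sound _ _ _ _ _ _ _ _ _ hw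
  generalize hkk : (fr a b G).length = k at *
  have hcget : ∀ i (hi : i < k), cl.getD i 0 = cl[i]'(by rw [hlen]; exact hi) := by
    intro i hi
    rw [List.getD_eq_getElem?_getD, List.getElem?_eq_getElem (by rw [hlen]; exact hi)]
    rfl
  have hcmem : ∀ i, i < k → cl.getD i 0 ∈ fr a b G := by
    intro i hi
    rw [hcget i hi]
    exact hperm.mem_iff.mpr (List.getElem_mem _)
  refine ⟨fun i => src (cl.getD i 0), ⟨?_, ?_⟩, r, hr, ?_⟩
  · intro i hi j hj hij
    have h1 := hinj _ (hcmem i hi) _ (hcmem j hj) hij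
    rw [hcget i hi, hcget j hj] at h1
    exact (hperm.nodup_iff.mp (nodup_fr a b G)).getElem_inj_iff.mp h1
  · intro e
    rw [henum e]
    constructor
    · rintro ⟨z, hz, rfl⟩
      obtain ⟨i, hi, rfl⟩ := List.getElem_of_mem (hperm.mem_iff.mp hz)
      rw [hlen] at hi
      exact ⟨i, hi, by simp only [hcget i hi]⟩
    · rintro ⟨i, hi, rfl⟩
      exact ⟨_, hcmem i hi, rfl⟩
  · intro j hj
    obtain ⟨i1, hi1, p, hp, i2, hi2, q, hq, hglue, htgt⟩ := hst j hj
    obtain ⟨fX, gX, vX⟩ := sX i1 hi1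
    obtain ⟨fY, gY, vY⟩ := sY i2 hi2
    have gX' := hact V E s t X fX p hp gX
    have gY' := hact V E s t Y fY q hq gY
    obtain ⟨f, hf⟩ : ∃ f : E → ℕ, f = fun e => if s e ∈ X ∨ t e ∈ X then nib (pt p) (fX e)
      else nib (pt q) (fY e) := ⟨_, rfl⟩
    have hf1 : ∀ e, (s e ∈ X ∨ t e ∈ X) → f e = nib (pt p) (fX e) := fun e he => by
      rw [hf]; simp only [if_pos he]
    have hf2 : ∀ e, ¬ (s e ∈ X ∨ t e ∈ X) → f e = nib (pt q) (fY e) := fun e he => by
      rw [hf]; simp only [if_neg he]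
    have hdis : ∀ v, v ∈ X → v ∉ Y := fun v hv => Set.disjoint_left.mp hd hv
    have hf3 : ∀ e, (s e ∈ Y ∨ t e ∈ Y) → f e = nib (pt q) (fY e) := by
      intro e he
      by_cases hx : s e ∈ X ∨ t e ∈ X
      · have h1 := hdis (s e)
        have h2 := hdis (t e)
        have hcX : e ∈ cut s t X := by rw [mem_cut]; tauto
        have hcY : e ∈ cut s t Y := by rw [mem_cut]; tauto
        obtain ⟨x, hx', rfl⟩ := (mX e).mp hcX
        obtain ⟨y, hy', hxy⟩ := (mY _).mp hcY
        have hgx := hg3 x y hy' hxy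
        have h3 := hglue x hx' (by rw [hGg x hx']; omega)
        rw [hGg x hx', hgx] at h3
        rw [hf1 _ hx, vX x hx', h3, ← hxy, vY y hy']
      · exact hf2 e hx
    refine ⟨f, ⟨?_, ?_⟩, ?_⟩
    · intro e
      by_cases hx : s e ∈ X ∨ t e ∈ X
      · rw [hf1 e hx]; exact gX'.1 e
      · rw [hf2 e hx]; exact gY'.1 e
    · intro v hv i hi
      rcases hv with hv | hv
      · rw [← gX'.2 v hv i hi]
        refine bd_congr s t _ _ v fun e he => ?_
        unfold xi
        rw [hf1 e (by rcases he with h | h <;> rw [h] <;> simp [hv])]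
      · rw [← gY'.2 v hv i hi]
        refine bd_congr s t _ _ v fun e he => ?_
        unfold xi
        rw [hf3 e (by rcases he with h | h <;> rw [h] <;> simp [hv])]
    · intro i hi
      have hmem := hcmem i hi
      have ht := htgt i hi
      show f (src (cl.getD i 0)) = _
      rcases (hfr _).mp hmem with ⟨h1, h2⟩ | ⟨y, hy, hyG, hcy⟩
      · rw [hs1 _ h1, hf1, vX _ h1, ht.1 h1]
        have h3 := (hfX _ h1 h2).1
        rw [mem_cut] at h3
        tauto
      · have h3 := hfY y hy hyG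
        rw [mem_cut, mem_cut] at h3
        have h4 := ht.2 (by omega)
        rw [hcy, Nat.add_sub_cancel_left] at h4
        rw [hcy, hs2, hf2, vY y hy, h4]
        exact aux h3.1 h3.2 (hdis (s (oY y))) (hdis (t (oY y)))

theorem join (hact : StmAct) : StmJoin := by
  intro V E _ s t X Y a b hd hX hY ha ha5 hb hb5 hk
  rcases le_total a b with h | h
  · exact join_le hact s t X Y a b hd hX hY ha h hb5 hk
  · rw [Set.union_comm] at hk ⊢
    exact join_le hact s t Y X b a hd.symm hY hX hb h ha5 hk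

end Pool.Agent.W420.BF
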