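import Pool.Agent.W420.BF.Defs

/-!
From good colourings to six even subgraphs.
-/

set_option autoImplicit false

open Finset

namespace Pool.Agent.W420.BF

theorem card_mem6 : ∀ c < 15, (univ.filter (fun i : Fin 6 => mem6 c i = true)).card = 4 := by
  decide +kernel

open Classical in
theorem fin_even {V E : Type} [Fintype E] (s t : E → V) (f : E → ℕ) (i : ℕ) (v : V)
    (h : bd s t (xi f i) v = 0) :
    Even ((univ.filter (fun e => mem6 (f e) i = true ∧ s e = v)).card +
      (univ.filter (fun e => mem6 (f e) i = true ∧ t e = v)).card) := by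
  rw [← ZMod.natCast_eq_zero_iff_even, ← h]
  unfold bd
  rw [Finset.card_filter, Finset.card_filter]
  push_cast
  rw [← Finset.sum_add_distrib]
  refine Finset.sum_congr rfl fun e _ => ?_
  unfold xi
  by_cases h1 : mem6 (f e) i = true <;> by_cases h2 : s e = v <;> by_cases h3 : t e = v <;>
    simp [h1, h2, h3]

open Classical in
theorem fin_cover {V E : Type} [Fintype E] (s t : E → V) (f : E → ℕ)
    (h : Good s t f Set.univ) : ∃ C : Fin 6 → Finset E,
      (∀ i v, Even (((C i).filter (fun e => s e = v)).card +
        ((C i).filter (fun e => t e = v)).card)) ∧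
      ∀ e, (univ.filter (fun i => e ∈ C i)).card = 4 := by
  refine ⟨fun i => univ.filter (fun e => mem6 (f e) i = true), ?_, ?_⟩
  · intro i v
    have := fin_even s t f i v (h.2 v (Set.mem_univ v) i i.2)
    rw [Finset.filter_filter, Finset.filter_filter]
    exact this
  · intro e
    have := card_mem6 (f e) (h.1 e)
    rw [← this]
    congr 1
    ext i
    simp

end Pool.Agent.W420.BF
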