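import Pool.Agent.W420.BF.Defs

/-!
Soundness of the table checker.
-/

set_option autoImplicit false

open Finset

namespace Pool.Agent.W420.BF

theorem chkAll_sound (a b M ml N nl : ℕ) : ∀ (Gs : List (List ℕ)) (W : List (List ℕ)),
    chkAll a b M ml N nl Gs W = true → ∀ G ∈ Gs, rel (fr a b G).length = true →
    ∃ w, chk1 a b M ml N nl G (fr a b G).length w = true := by
  intro Gs
  induction Gs with
  | nil => intro W _ G hG; simp at hG
  | cons H Hs ih =>
    intro W h G hG hr
    rw [chkAll] at h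
    rcases List.mem_cons.mp hG with rfl | hG
    · rw [hr] at h
      simp only [cond_true, Bool.and_eq_true] at h
      exact ⟨_, h.1⟩
    · rcases hq : rel (fr a b H).length with _ | _
      · rw [hq] at h
        exact ih W h G hG hr
      · rw [hq] at h
        simp only [cond_true, Bool.and_eq_true] at h
        exact ih _ h.2 G hG hr

theorem mem_pats (b : ℕ) : ∀ (n : ℕ) (l : List ℕ), l.length = n → (∀ y ∈ l, y ≤ b) →
    l.Pairwise (fun y z => y = z → y = b) → l ∈ pats b n := by
  intro n
  induction n with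
  | zero =>
    intro l hl _ _
    rw [List.length_eq_zero_iff] at hl
    subst hl
    simp [pats]
  | succ n ih =>
    intro l hl hb hp
    cases l with
    | nil => simp at hl
    | cons y l =>
      rw [pats, List.mem_flatMap]
      refine ⟨l, ih l (by simpa using hl) (fun z hz => hb z (List.mem_cons_of_mem _ hz))
        (List.pairwise_cons.mp hp).2, ?_⟩
      rw [List.mem_map]
      refine ⟨y, ?_, rfl⟩
      rw [List.mem_filter, List.mem_range]
      refine ⟨Nat.lt_succ_of_le (hb y List.mem_cons_self), ?_⟩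
      by_cases hyb : y = b
      · simp [hyb]
      · have : y ∉ l := by
          intro hy
          exact hyb ((List.pairwise_cons.mp hp).1 y hy rfl)
        simp [this]

theorem mem_fr (a b : ℕ) (G : List ℕ) (z : ℕ) : z ∈ fr a b G ↔
    (z < a ∧ G.getD z b = b) ∨ ∃ y < b, y ∉ G ∧ z = a + y := by
  unfold fr
  simp only [List.mem_append, List.mem_filter, List.mem_range, List.mem_map, Nat.beq_eq,
    Bool.not_eq_true', List.contains_eq_mem, decide_eq_false_iff_not]
  constructor
  · rintro (h | ⟨y, ⟨h1, h2⟩, h3⟩)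
    · exact Or.inl h
    · exact Or.inr ⟨y, h1, h2, h3.symm⟩
  · rintro (h | ⟨y, h1, h2, h3⟩)
    · exact Or.inl h
    · exact Or.inr ⟨y, ⟨h1, h2⟩, h3.symm⟩

theorem nodup_fr (a b : ℕ) (G : List ℕ) : (fr a b G).Nodup := by
  unfold fr
  rw [List.nodup_append]
  refine ⟨List.nodup_range.filter _, (List.nodup_range.filter _).map (fun x y h => by
    simpa using h), ?_⟩
  intro x hx y hy
  simp only [List.mem_filter, List.mem_range, List.mem_map] at hx hy
  obtain ⟨z, _, rfl⟩ := hy
  omega

theorem chkL_sound (a b k : ℕ) (G c : List ℕ) (M ml N nl T : ℕ) : ∀ (us : List ℕ) (i : ℕ),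
    chkL a b k G c M ml N nl T i us = true → ∀ j < us.length,
    ∃ u, chkU a b k G c M ml N nl (stt T (i + j)) u = true := by
  intro us
  induction us with
  | nil => intro i _ j hj; simp at hj
  | cons u us ih =>
    intro i h j hj
    rw [chkL, Bool.and_eq_true] at h
    cases j with
    | zero => exact ⟨u, h.1⟩
    | succ j =>
      obtain ⟨v, hv⟩ := ih (i + 1) h.2 j (by simpa using hj)
      exact ⟨v, by rw [show i + (j + 1) = i + 1 + j by omega]; exact hv⟩

theorem length_dg : ∀ (k h : ℕ), (dg k h).length = k := by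
  intro k
  induction k with
  | zero => intro h; rfl
  | succ k ih => intro h; simp [dg, ih]

theorem chkU_sound (a b k : ℕ) (G c : List ℕ) (M ml N nl Z u : ℕ)
    (h : chkU a b k G c M ml N nl Z u = true) : ∃ i1 < ml, ∃ p < 720, ∃ i2 < nl, ∃ q < 720,
    (∀ x < a, G.getD x b ≠ b →
      nib (pt p) (nib (stt M i1) x) = nib (pt q) (nib (stt N i2) (G.getD x b))) ∧
    ∀ i < k, (c.getD i 0 < a → nib (pt p) (nib (stt M i1) (c.getD i 0)) = nib Z i) ∧
      (a ≤ c.getD i 0 → nib (pt q) (nib (stt N i2) (c.getD i 0 - a)) = nib Z i) := by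
  unfold chkU at h
  simp only [Bool.and_eq_true, Nat.ble_eq] at h
  obtain ⟨⟨⟨⟨⟨h1, h2⟩, h3⟩, h4⟩, h5⟩, h6⟩ := h
  refine ⟨u % 32, by omega, u / 32 % 1024, by omega, u / 32768 % 32, by omega, u / 1048576,
    by omega, ?_, ?_⟩
  · intro x hx hG
    unfold gl at h5
    rw [List.all_eq_true] at h5
    have := h5 x (List.mem_range.mpr hx)
    simp only [Bool.or_eq_true, Nat.beq_eq] at this
    rcases this with h | h
    · exact absurd h hG
    · exact h
  · intro i hi
    unfold tg at h6
    rw [List.all_eq_true] at h6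
    have := h6 i (List.mem_range.mpr hi)
    constructor
    · intro hlt
      have hb : Nat.ble a (c.getD i 0) = false := by
        rw [← Bool.not_eq_true, Nat.ble_eq]; omega
      rw [hb] at this
      simpa using this
    · intro hle
      have hb : Nat.ble a (c.getD i 0) = true := by rw [Nat.ble_eq]; exact hle
      rw [hb] at this
      simpa using this

/-- What a successful check of one gluing gives. -/
theorem chk1_sound (a b M ml N nl : ℕ) (G : List ℕ) (k : ℕ) (w : List ℕ)
    (h : chk1 a b M ml N nl G k w = true) : ∃ t < nb k, ∃ c : List ℕ, (fr a b G).Perm c ∧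
    c.length = k ∧ ∀ j < tl k t, ∃ i1 < ml, ∃ p < 720, ∃ i2 < nl, ∃ q < 720,
    (∀ x < a, G.getD x b ≠ b →
      nib (pt p) (nib (stt M i1) x) = nib (pt q) (nib (stt N i2) (G.getD x b))) ∧
    ∀ i < k, (c.getD i 0 < a →
        nib (pt p) (nib (stt M i1) (c.getD i 0)) = nib (stt (tp k t) j) i) ∧
      (a ≤ c.getD i 0 →
        nib (pt q) (nib (stt N i2) (c.getD i 0 - a)) = nib (stt (tp k t) j) i) := by
  unfold chk1 at h
  simp only [Bool.and_eq_true, Nat.ble_eq, Nat.beq_eq] at h
  obtain ⟨⟨⟨h1, h2⟩, h3⟩, h4⟩ := h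
  refine ⟨w.headD 0 % 8, by omega, dg k (w.headD 0 / 8), List.isPerm_iff.mp h3, length_dg _ _, ?_⟩
  intro j hj
  obtain ⟨u, hu⟩ := chkL_sound a b k G _ M ml N nl _ _ 0 h4 j (by rw [h2]; exact hj)
  rw [zero_add] at hu
  exact chkU_sound _ _ _ _ _ _ _ _ _ _ _ hu

end Pool.Agent.W420.BF
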